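import Pool.Agent.NPX.Stmts

/-!
# Squad NPX, row EXN: exhaustion (helper50)
-/

set_option autoImplicit false

open MeasureTheory Set Topology

namespace Pool.Agent.NPX.H50

open Pool.Agent.LSG Pool.Agent.NPX

theorem exn (hM : MupStmt) (hP : PhnStmt) : ExnStmt := by
  classical
  intro K _ _ _ _ _ _ _ _ G S hG p q T c hT hS hSp ε hε
  obtain ⟨hprob, _hhaar, hmk1, -, -, -, -⟩ := hM K
  have hinf : Inf K 1 := by
    unfold Inf
    have h1 : (Set.range fun x : K => x ^ (1 : ℤ)) = Set.univ := by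
      ext x
      simp
    rw [h1]
    exact Set.infinite_univ
  choose E φ hEφ hsup using hP K G p q T c hT
  obtain ⟨f, hf⟩ := hS.exists_eq_range ⟨1, S.one_mem⟩
  let H : ℕ → Finset K := fun r => (Finset.range (r + 1)).image f
  have hHS : ∀ r, ∀ h ∈ H r, h ∈ S := by
    intro r h hh
    obtain ⟨k, -, rfl⟩ := Finset.mem_image.1 hh
    have : f k ∈ (S : Set K) := by
      rw [hf]
      exact ⟨k, rfl⟩
    exact this
  have hHm : ∀ {r r' : ℕ}, r ≤ r' → H r ⊆ H r' := by
    intro r r' h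
    refine Finset.image_subset_image ?_
    intro k hk
    rw [Finset.mem_range] at hk ⊢
    omega
  let M : ℕ → Set K := fun r =>
    {x | ∀ i n, x ∈ E i n → ∃ j : ℤ, |j| ≤ (r : ℤ) ∧ φ i n x * (x ^ j)⁻¹ ∈ H r}
  haveI : SecondCountableTopology K := by
    letI := TopologicalSpace.metrizableSpaceMetric K
    infer_instance
  have hMm : ∀ r, MeasurableSet (M r) := by
    intro r
    have h1 : M r = ⋂ i, ⋂ n, ((E i n)ᶜ ∪ ⋃ j : ℤ, ⋃ _ : |j| ≤ (r : ℤ),
        {x | φ i n x * (x ^ j)⁻¹ ∈ H r}) := by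
      ext x
      simp only [M, Set.mem_ofPred_eq, Set.mem_iInter, Set.mem_union, Set.mem_compl_iff,
        Set.mem_iUnion, exists_prop]
      constructor
      · intro h i n
        by_cases hx : x ∈ E i n
        · exact Or.inr (h i n hx)
        · exact Or.inl hx
      · intro h i n hx
        rcases h i n with h' | h'
        · exact absurd hx h'
        · exact h'
    rw [h1]
    refine MeasurableSet.iInter fun i => MeasurableSet.iInter fun n => ?_
    refine ((hEφ i n).1.compl).union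
      (MeasurableSet.iUnion fun j => MeasurableSet.iUnion fun _ => ?_)
    have hm : Measurable fun x => φ i n x * (x ^ j)⁻¹ :=
      (hEφ i n).2.mul ((continuous_zpow j).measurable.inv)
    exact hm (H r).measurableSet
  have hMmono : ∀ {r r' : ℕ}, r ≤ r' → M r ⊆ M r' := by
    intro r r' h x hx i n hxn
    obtain ⟨j, hj, hj'⟩ := hx i n hxn
    refine ⟨j, hj.trans (by exact_mod_cast h), hHm h hj'⟩
  -- the set where the supports are not controlled
  have hae := hSp.2 1 hinf 1 S.one_mem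
  rw [MeasureTheory.ae_iff] at hae
  obtain ⟨N, hNsub, hNm, hN0⟩ := MeasureTheory.exists_measurable_superset_of_null hae
  have hB0 : mu K (N ∪ ⋃ r, M r)ᶜ = 0 := by
    by_contra hne
    have hBm : MeasurableSet (N ∪ ⋃ r, M r)ᶜ := (hNm.union (MeasurableSet.iUnion hMm)).compl
    have hpos : 0 < mk K 1 (N ∪ ⋃ r, M r)ᶜ := by
      rw [hmk1]
      exact pos_iff_ne_zero.2 hne
    obtain ⟨x, hxG, hxB⟩ := hG.full 1 hinf _ hBm hpos
    rw [Set.mem_compl_iff, Set.mem_union, not_or] at hxB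
    obtain ⟨hxN, hxM⟩ := hxB
    have hx : ∀ (y : G) (i : Fin q) (a : G × Fin p), (y : K) = x ^ (1 : ℤ) * 1 →
        c (y, i) a ≠ 0 → ∃ j : ℤ, (a.1 : K) * ((y : K) ^ j)⁻¹ ∈ (S : Set K) := by
      by_contra hcon
      exact hxN (hNsub hcon)
    have hx2 : ∀ (i : Fin q) (a : G × Fin p), c (⟨x, hxG⟩, i) a ≠ 0 →
        ∃ j : ℤ, ∃ k : ℕ, (a.1 : K) * (x ^ j)⁻¹ = f k := by
      intro i a ha
      obtain ⟨j, hj⟩ := hx ⟨x, hxG⟩ i a (by simp) ha
      rw [hf] at hj
      obtain ⟨k, hk⟩ := hj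
      exact ⟨j, k, hk.symm⟩
    have hx3 : ∀ (i : Fin q) (a : G × Fin p), ∃ j : ℤ, ∃ k : ℕ, c (⟨x, hxG⟩, i) a ≠ 0 →
        (a.1 : K) * (x ^ j)⁻¹ = f k := by
      intro i a
      by_cases ha : c (⟨x, hxG⟩, i) a = 0
      · exact ⟨0, 0, fun h => absurd ha h⟩
      · obtain ⟨j, k, h⟩ := hx2 i a ha
        exact ⟨j, k, fun _ => h⟩
    choose J Kf hJK using hx3
    -- a bound
    let r : ℕ := ∑ i : Fin q, ∑ a ∈ (c (⟨x, hxG⟩, i)).support, ((J i a).natAbs + Kf i a)
    have hr : ∀ (i : Fin q) (a : G × Fin p), c (⟨x, hxG⟩, i) a ≠ 0 →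
        (J i a).natAbs + Kf i a ≤ r := by
      intro i a ha
      calc (J i a).natAbs + Kf i a
          ≤ ∑ a ∈ (c (⟨x, hxG⟩, i)).support, ((J i a).natAbs + Kf i a) :=
            Finset.single_le_sum (f := fun a => (J i a).natAbs + Kf i a)
              (fun _ _ => Nat.zero_le _) (Finsupp.mem_support_iff.2 ha)
        _ ≤ r := Finset.single_le_sum
              (f := fun i => ∑ a ∈ (c (⟨x, hxG⟩, i)).support, ((J i a).natAbs + Kf i a))
              (fun _ _ => Nat.zero_le _) (Finset.mem_univ i)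
    apply hxM
    refine Set.mem_iUnion.2 ⟨r, ?_⟩
    intro i n hxn
    obtain ⟨a, ha, haz⟩ := (hsup i ⟨x, hxG⟩ (φ i n x)).2 ⟨n, hxn, rfl⟩
    have h2 := hr i a ha
    refine ⟨J i a, ?_, ?_⟩
    · rw [Int.abs_eq_natAbs]
      exact_mod_cast (le_trans (Nat.le_add_right _ _) h2)
    · rw [← haz, hJK i a ha]
      refine Finset.mem_image.2 ⟨Kf i a, ?_, rfl⟩
      rw [Finset.mem_range]
      omega
  have hU0 : mu K (⋂ r, (M r)ᶜ) = 0 := by
    rw [← Set.compl_iUnion]
    refine le_antisymm ?_ bot_le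
    calc mu K (⋃ r, M r)ᶜ ≤ mu K (N ∪ (N ∪ ⋃ r, M r)ᶜ) := by
          refine measure_mono ?_
          intro y hy
          by_cases hyN : y ∈ N
          · exact Or.inl hyN
          · refine Or.inr ?_
            rw [Set.mem_compl_iff, Set.mem_union, not_or]
            exact ⟨hyN, hy⟩
      _ ≤ mu K N + mu K (N ∪ ⋃ r, M r)ᶜ := measure_union_le _ _
      _ = 0 := by rw [hN0, hB0, add_zero]
  haveI := hprob
  have htend : Filter.Tendsto (fun r => mu K (M r)ᶜ) Filter.atTop (nhds (mu K (⋂ r, (M r)ᶜ))) := by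
    refine tendsto_measure_iInter_atTop (fun r => (hMm r).compl.nullMeasurableSet) ?_ ?_
    · intro r r' h
      exact Set.compl_subset_compl.2 (hMmono h)
    · exact ⟨0, measure_ne_top _ _⟩
  rw [hU0] at htend
  obtain ⟨r, hr⟩ := ((htend.eventually (gt_mem_nhds hε))).exists
  refine ⟨H r, r, M r, hHS r, hMm r, hr.le, ?_⟩
  intro x i a hx ha
  obtain ⟨n, hn, hn'⟩ := (hsup i x a.1).1 ⟨a, ha, rfl⟩
  obtain ⟨j, hj, hj'⟩ := hx i n hn
  refine ⟨j, hj, ?_⟩
  rw [← hn']
  exact hj'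

end Pool.Agent.NPX.H50
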